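import Pool.Agent.OrderTypesDTC.Proof

/-!
For every fixed `k ≥ 2` the number `c_k(n)` of order types of `n`-point configurations `S` in the
plane with `DTC(S) < k` satisfies `log c_k(n) = Θ(n)`.
-/

namespace Pool.Agent.Results.MP_6a769b_co.LogCountLinear

open Pool.Agent.OrderTypesDTC

theorem result (k : ℕ) (hk : 2 ≤ k) :
    (fun n : ℕ => Real.log (numOrderTypes k n)) =Θ[Filter.atTop] (fun n : ℕ => (n : ℝ)) :=
  log_numOrderTypes_isTheta k hk

end Pool.Agent.Results.MP_6a769b_co.LogCountLinear
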